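import Pool.Agent.Lib.MP_8916ec_co.Perron

set_option autoImplicit false

namespace Pool.Agent.Lib.MP_8916ec_co

open Finset

lemma Sep.of_restrict {Y : Type*} {r : ℕ} (f : Fin r → Y → ℝ) (F : Finset Y) (c : Fin r → ℝ)
    (h : Sep (fun i (x : F) => f i x) c) : Sep f c := by
  intro i
  obtain ⟨x, hx⟩ := h i
  exact ⟨x, hx⟩

lemma exists_bound {Y : Type*} {r : ℕ} (f : Fin r → Y → ℝ) [Finite Y] :
    ∃ R : ℝ, ∀ i j x, f i x - f j x ≤ R := by
  have := Finite.bddAbove_range (fun p : Fin r × Fin r × Y => f p.1 p.2.2 - f p.2.1 p.2.2)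
  obtain ⟨R, hR⟩ := this
  exact ⟨R, fun i j x => hR ⟨(i, j, x), rfl⟩⟩

/-- weights -/
noncomputable def wt {Y : Type*} {r : ℕ} (f : Fin r → Y → ℝ) (u : Fin r → ℝ) (i : Fin r) (x : Y) :
    ℝ := Real.exp (-f i x) * u i

lemma exists_limit {Y : Type*} {r : ℕ} (f : Fin r → Y → ℝ)
    (h : ∀ F : Finset Y, ∃ u : Fin r → ℝ, (∀ i, 0 ≤ u i ∧ u i ≤ 1) ∧ (∃ i, u i = 1) ∧
      ∀ x ∈ F, ∃ i j, i ≠ j ∧ wt f u i x = wt f u j x ∧ ∀ k, wt f u k x ≤ wt f u i x) :
    ∃ u : Fin r → ℝ, (∀ i, 0 ≤ u i ∧ u i ≤ 1) ∧ (∃ i, u i = 1) ∧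
      ∀ x, ∃ i j, i ≠ j ∧ wt f u i x = wt f u j x ∧ ∀ k, wt f u k x ≤ wt f u i x := by
  let K : Set (Fin r → ℝ) := {u | (∀ i, u i ∈ Set.Icc (0 : ℝ) 1)} ∩ {u | ∃ i, u i = 1}
  have hK : IsCompact K := by
    apply IsCompact.inter_right
    · have : {u : Fin r → ℝ | (∀ i, u i ∈ Set.Icc (0 : ℝ) 1)} =
          Set.pi Set.univ (fun _ => Set.Icc (0 : ℝ) 1) := by
        ext u
        exact ⟨fun h i _ => h i, fun h i => h i trivial⟩
      rw [this]
      exact isCompact_univ_pi (fun _ => isCompact_Icc)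
    · have : {u : Fin r → ℝ | ∃ i, u i = 1} = ⋃ i, {u : Fin r → ℝ | u i = 1} := by
        ext u; simp
      rw [this]
      exact isClosed_iUnion_of_finite (fun i => isClosed_eq (continuous_apply i) continuous_const)
  let t : Y → Set (Fin r → ℝ) := fun x =>
    {u | ∃ i j, i ≠ j ∧ wt f u i x = wt f u j x ∧ ∀ k, wt f u k x ≤ wt f u i x}
  have hcont : ∀ i x, Continuous (fun u : Fin r → ℝ => wt f u i x) := by
    intro i x
    unfold wt
    exact continuous_const.mul (continuous_apply i)
  have ht : ∀ x, IsClosed (t x) := by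
    intro x
    have : t x = ⋃ i, ⋃ j, {u : Fin r → ℝ | i ≠ j} ∩ ({u | wt f u i x = wt f u j x} ∩
        ⋂ k, {u | wt f u k x ≤ wt f u i x}) := by
      ext u
      simp only [t, Set.mem_ofPred_eq, Set.mem_iUnion, Set.mem_inter_iff, Set.mem_iInter]
    rw [this]
    refine isClosed_iUnion_of_finite fun i => isClosed_iUnion_of_finite fun j => ?_
    refine IsClosed.inter isClosed_const (IsClosed.inter (isClosed_eq (hcont i x) (hcont j x)) ?_)
    exact isClosed_iInter fun k => isClosed_le (hcont k x) (hcont i x)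
  have hne : ∀ F : Finset Y, (K ∩ ⋂ x ∈ F, t x).Nonempty := by
    intro F
    obtain ⟨u, h1, h2, h3⟩ := h F
    refine ⟨u, ⟨fun i => h1 i, h2⟩, ?_⟩
    simp only [Set.mem_iInter]
    exact h3
  obtain ⟨u, hu, hu'⟩ := hK.inter_iInter_nonempty t ht hne
  refine ⟨u, fun i => hu.1 i, hu.2, fun x => ?_⟩
  simp only [Set.mem_iInter] at hu'
  exact hu' x

/-- Independence over `ℝ ∪ {∞}` gives separation, without any boundedness assumption. -/
theorem exists_sepT {Y : Type*} {r : ℕ} (f : Fin r → Y → ℝ) (hf : ¬ TropDependentT f) :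
    ∃ c : Fin r → ℝ, Sep f c := by
  by_cases hF : ∃ F : Finset Y, ¬ TropDependent (fun i (x : F) => f i x)
  · obtain ⟨F, hF⟩ := hF
    obtain ⟨R, hR⟩ := exists_bound (fun i (x : F) => f i x)
    obtain ⟨c, hc⟩ := exists_sep _ R hR hF
    exact ⟨c, Sep.of_restrict f F c hc⟩
  · push Not at hF
    rcases Nat.eq_zero_or_pos r with h0 | hr
    · subst h0
      exact ⟨fun _ => 0, fun i => i.elim0⟩
    exfalso
    apply hf
    have key := exists_limit f (by
      intro F
      obtain ⟨c, hc⟩ := hF F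
      obtain ⟨a, -, ha⟩ := Finset.exists_min_image univ c ⟨⟨0, hr⟩, mem_univ _⟩
      have ha' : ∀ i, c a ≤ c i := fun i => ha i (mem_univ i)
      refine ⟨fun i => Real.exp (c a - c i), fun i => ⟨(Real.exp_pos _).le, ?_⟩, ⟨a, by simp⟩, ?_⟩
      · rw [Real.exp_le_one_iff]
        have := ha' i
        linarith
      · intro x hx
        obtain ⟨i, j, hij, h1, h2⟩ := hc ⟨x, hx⟩
        have e : ∀ i, wt f (fun i => Real.exp (c a - c i)) i x =
            Real.exp (c a - (f i x + c i)) := by
          intro i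
          unfold wt
          rw [← Real.exp_add]
          congr 1
          ring
        refine ⟨i, j, hij, ?_, fun k => ?_⟩
        · rw [e, e]
          simp only at h1
          rw [h1]
        · rw [e, e, Real.exp_le_exp]
          have := h2 k
          simp only at this
          linarith)
    obtain ⟨u, hu1, ⟨a, ha⟩, hu3⟩ := key
    refine ⟨fun i => if u i = 0 then ⊤ else ((-Real.log (u i) : ℝ) : WithTop ℝ), ⟨a, ?_⟩, ?_⟩
    · simp [ha]
    · intro x
      obtain ⟨i, j, hij, h1, h2⟩ := hu3 x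
      have hpos : 0 < wt f u i x := by
        refine lt_of_lt_of_le ?_ (h2 a)
        unfold wt
        rw [ha, mul_one]
        exact Real.exp_pos _
      have hi : 0 < u i := by
        unfold wt at hpos
        exact (pos_iff_pos_of_mul_pos hpos).1 (Real.exp_pos _)
      have hj : 0 < u j := by
        rw [h1] at hpos
        unfold wt at hpos
        exact (pos_iff_pos_of_mul_pos hpos).1 (Real.exp_pos _)
      have e : ∀ k, 0 < u k → Real.log (wt f u k x) = -(f k x + -Real.log (u k)) := by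
        intro k hk
        unfold wt
        rw [Real.log_mul (Real.exp_pos _).ne' hk.ne', Real.log_exp]
        ring
      refine ⟨i, j, hij, ?_, fun k => ?_⟩
      · simp only [hi.ne', hj.ne', if_false]
        rw [← WithTop.coe_add, ← WithTop.coe_add, WithTop.coe_inj]
        have h3 := e i hi
        have h4 := e j hj
        rw [h1] at h3
        linarith
      · by_cases hk : u k = 0
        · simp [hk]
        · have hk' : 0 < u k := lt_of_le_of_ne (hu1 k).1 (Ne.symm hk)
          simp only [hi.ne', hk, if_false]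
          rw [← WithTop.coe_add, ← WithTop.coe_add, WithTop.coe_le_coe]
          have h3 := e i hi
          have h4 := e k hk'
          have h5 : Real.log (wt f u k x) ≤ Real.log (wt f u i x) := by
            apply Real.log_le_log _ (h2 k)
            unfold wt
            exact mul_pos (Real.exp_pos _) hk'
          linarith

end Pool.Agent.Lib.MP_8916ec_co
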