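import Mathlib

set_option autoImplicit false

namespace Pool.Agent.Lib.MP_8916ec_co

open Tropical

/-- The tropical semiring `𝕋 = (ℝ ∪ {∞}, min, +)`. -/
abbrev TT : Type := Tropical (WithTop ℝ)

/-- A real-valued function, seen as a function with values in `𝕋`. -/
def toT {Y : Type*} (f : Y → ℝ) : Y → TT := fun x => trop (f x : WithTop ℝ)

/-- Closed convex polyhedra of `ℝ^n`: solution sets of finitely many weak linear inequalities. -/
def IsPolyhedron {n : ℕ} (P : Set (Fin n → ℝ)) : Prop :=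
  ∃ (m : ℕ) (a : Fin m → Fin n → ℝ) (b : Fin m → ℝ), P = {x | ∀ i, ∑ j, a i j * x j ≤ b i}

/-- Polyhedral subspaces of `ℝ^d`: finite unions of closed convex polyhedra. -/
def IsPolyhedralSubspace {d : ℕ} (Y : Set (Fin d → ℝ)) : Prop :=
  ∃ (m : ℕ) (P : Fin m → Set (Fin d → ℝ)), (∀ i, IsPolyhedron (P i)) ∧ Y = ⋃ i, P i

/-- Piecewise linear functions on `Y ⊆ ℝ^d`: continuous, and affine on each member of some finite
family of closed convex polyhedra with union `Y`. -/
def IsPL {d : ℕ} (Y : Set (Fin d → ℝ)) (f : Y → ℝ) : Prop :=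
  Continuous f ∧ ∃ (m : ℕ) (P : Fin m → Set (Fin d → ℝ)), (∀ i, IsPolyhedron (P i)) ∧
    Y = (⋃ i, P i) ∧
    ∀ i, ∃ (a : Fin d → ℝ) (b : ℝ), ∀ x : Y, (x : Fin d → ℝ) ∈ P i → f x = ∑ j, a j * x.1 j + b

/-- Tropical dependence with real coefficients: for some `c ∈ ℝ^r`, at every point of `Y` the
minimum of the `f i + c i` is attained by at least two indices. -/
def TropDependent {Y : Type*} {r : ℕ} (f : Fin r → Y → ℝ) : Prop :=
  ∃ c : Fin r → ℝ, ∀ x, ∃ i j, i ≠ j ∧ f i x + c i = f j x + c j ∧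
    ∀ k, f i x + c i ≤ f k x + c k

/-- Tropical dependence with coefficients in `ℝ ∪ {∞}`, not all of them equal to `∞`. -/
def TropDependentT {Y : Type*} {r : ℕ} (f : Fin r → Y → ℝ) : Prop :=
  ∃ c : Fin r → WithTop ℝ, (∃ i, c i ≠ ⊤) ∧ ∀ x, ∃ i j, i ≠ j ∧
    (f i x : WithTop ℝ) + c i = (f j x : WithTop ℝ) + c j ∧
    ∀ k, (f i x : WithTop ℝ) + c i ≤ (f k x : WithTop ℝ) + c k

/-- `troprank M`: the largest `r` such that `M` contains `r` tropically independent (finite-valued)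
elements; independence refers to real coefficients. The value `⊤` means that there is no largest
such `r`. -/
noncomputable def tropRank {Y : Type*} (M : Submodule TT (Y → TT)) : ℕ∞ :=
  ⨆ (r : ℕ) (_ : ∃ f : Fin r → Y → ℝ, Function.Injective f ∧ (∀ i, toT (f i) ∈ M) ∧
    ¬ TropDependent f), (r : ℕ∞)

/-- The same with dependence over `ℝ ∪ {∞}`. -/
noncomputable def tropRankT {Y : Type*} (M : Submodule TT (Y → TT)) : ℕ∞ :=
  ⨆ (r : ℕ) (_ : ∃ f : Fin r → Y → ℝ, Function.Injective f ∧ (∀ i, toT (f i) ∈ M) ∧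
    ¬ TropDependentT f), (r : ℕ∞)

/-- The map `Ψ : ℝ^l → M`, `Ψ(c) = min_j (g_j + c_j)`, written in the semimodule of `𝕋`-valued
functions. -/
noncomputable def Psi {Y : Type*} {l : ℕ} (g : Fin l → Y → ℝ) (c : Fin l → ℝ) : Y → TT :=
  ∑ j, trop (c j : WithTop ℝ) • toT (g j)

/-- The fibre of `Ψ` over `f`. -/
def fibre {Y : Type*} {l : ℕ} (g : Fin l → Y → ℝ) (f : Y → TT) : Set (Fin l → ℝ) :=
  {c | Psi g c = f}

/-- The dimension of a finite union `S` of polyhedra of `ℝ^n`: the largest dimension of a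
polyhedron contained in `S`, the dimension of a polyhedron being that of its affine hull. -/
noncomputable def polyDim {n : ℕ} (S : Set (Fin n → ℝ)) : ℕ :=
  sSup {k | ∃ P : Set (Fin n → ℝ), IsPolyhedron P ∧ P.Nonempty ∧ P ⊆ S ∧
    Module.finrank ℝ (vectorSpan ℝ P) = k}

/-- `dim M` computed from the generators `g`: the largest value of `l - dim Ψ⁻¹(f)` over the
`f ∈ M` with nonempty fibre. -/
noncomputable def dimM {Y : Type*} {l : ℕ} (M : Submodule TT (Y → TT)) (g : Fin l → Y → ℝ) : ℕ :=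
  sSup {k | ∃ f ∈ M, (fibre g f).Nonempty ∧ k = l - polyDim (fibre g f)}

end Pool.Agent.Lib.MP_8916ec_co
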