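import Pool.Agent.Lib.MP_8916ec_co.Rank

set_option autoImplicit false

namespace Pool.Agent.Lib.MP_8916ec_co

open Finset Tropical

lemma isPolyhedron_of_fintype {n : ℕ} {ι : Type*} [Fintype ι] (a : ι → Fin n → ℝ) (b : ι → ℝ) :
    IsPolyhedron {x : Fin n → ℝ | ∀ i, ∑ j, a i j * x j ≤ b i} := by
  refine ⟨Fintype.card ι, fun i => a ((Fintype.equivFin ι).symm i),
    fun i => b ((Fintype.equivFin ι).symm i), ?_⟩
  ext x
  constructor
  · intro h i
    exact h _
  · intro h i
    have := h (Fintype.equivFin ι i)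
    simpa using this

lemma IsPolyhedron.convex {n : ℕ} {P : Set (Fin n → ℝ)} (hP : IsPolyhedron P) : Convex ℝ P := by
  obtain ⟨m, a, b, rfl⟩ := hP
  intro x hx y hy s t hs ht hst i
  have h1 := hx i
  have h2 := hy i
  have : ∑ j, a i j * (s • x + t • y) j = s * ∑ j, a i j * x j + t * ∑ j, a i j * y j := by
    rw [Finset.mul_sum, Finset.mul_sum, ← Finset.sum_add_distrib]
    refine Finset.sum_congr rfl fun j _ => ?_
    simp only [Pi.add_apply, Pi.smul_apply, smul_eq_mul]
    ring
  rw [this]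
  calc s * ∑ j, a i j * x j + t * ∑ j, a i j * y j ≤ s * b i + t * b i := by gcongr
    _ = b i := by rw [← add_mul, hst, one_mul]

section upper

variable {l : ℕ}

/-- upper bound for the dimension of a set whose points agree on the coordinates in `K` -/
lemma finrank_le_of_const (P : Set (Fin l → ℝ)) (K : Finset (Fin l))
    (h : ∀ c ∈ P, ∀ d ∈ P, ∀ k ∈ K, c k = d k) :
    Module.finrank ℝ (vectorSpan ℝ P) ≤ l - K.card := by
  let T : (Fin l → ℝ) →ₗ[ℝ] ({k // k ∉ K} → ℝ) := LinearMap.funLeft ℝ ℝ Subtype.val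
  have hz : ∀ v ∈ vectorSpan ℝ P, ∀ k ∈ K, v k = 0 := by
    intro v hv k hk
    have hle : vectorSpan ℝ P ≤ LinearMap.ker (LinearMap.proj k : (Fin l → ℝ) →ₗ[ℝ] ℝ) := by
      rw [vectorSpan_def, Submodule.span_le]
      intro v hv
      obtain ⟨c, hc, d, hd, rfl⟩ := Set.mem_vsub.1 hv
      simp [h c hc d hd k hk]
    have := hle hv
    simpa using this
  have hinj : Function.Injective (T.domRestrict (vectorSpan ℝ P)) := by
    rw [← LinearMap.ker_eq_bot, LinearMap.ker_eq_bot']
    rintro ⟨v, hv⟩ hTv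
    ext k
    by_cases hk : k ∈ K
    · exact hz v hv k hk
    · have := congrFun hTv ⟨k, hk⟩
      simpa [T] using this
  have h1 := LinearMap.finrank_le_finrank_of_injective hinj
  refine h1.trans ?_
  rw [Module.finrank_fintype_fun_eq_card]
  have : Fintype.card {k // k ∉ K} = l - K.card := by
    rw [Fintype.card_subtype_compl, Fintype.card_fin, Fintype.card_coe]
  rw [this]

/-- lower bound for the dimension -/
lemma le_finrank_of_units (P : Set (Fin l → ℝ)) (J : Finset (Fin l)) (c : Fin l → ℝ) (hc : c ∈ P)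
    (h : ∀ k, k ∉ J → c + Pi.single k 1 ∈ P) :
    l - J.card ≤ Module.finrank ℝ (vectorSpan ℝ P) := by
  let T : ({k // k ∉ J} → ℝ) →ₗ[ℝ] (Fin l → ℝ) := Fintype.linearCombination ℝ
    (fun k : {k // k ∉ J} => (Pi.single k.1 (1 : ℝ) : Fin l → ℝ))
  have hT : ∀ v, T v ∈ vectorSpan ℝ P := by
    intro v
    simp only [T, Fintype.linearCombination_apply]
    refine Submodule.sum_mem _ fun k _ => Submodule.smul_mem _ _ ?_
    have := vsub_mem_vectorSpan ℝ (h k.1 k.2) hc
    simpa using this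
  have hTv : ∀ v (k : {k // k ∉ J}), T v k.1 = v k := by
    intro v k
    simp only [T, Fintype.linearCombination_apply, Finset.sum_apply, Pi.smul_apply, smul_eq_mul]
    rw [Finset.sum_eq_single k]
    · simp
    · intro b _ hb
      rw [Pi.single_eq_of_ne (fun h' => hb (Subtype.ext h'.symm)), mul_zero]
    · intro h'; exact absurd (mem_univ k) h'
  have hinj : Function.Injective (T.codRestrict (vectorSpan ℝ P) hT) := by
    intro v w hvw
    ext k
    have h1 : T v = T w := congrArg Subtype.val hvw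
    rw [← hTv v k, ← hTv w k, h1]
  have h1 := LinearMap.finrank_le_finrank_of_injective hinj
  rw [Module.finrank_fintype_fun_eq_card] at h1
  have : Fintype.card {k // k ∉ J} = l - J.card := by
    rw [Fintype.card_subtype_compl, Fintype.card_fin, Fintype.card_coe]
  rw [← this]
  exact h1

end upper

variable {Y : Type*} {l : ℕ} (g : Fin l → Y → ℝ)

lemma untrop_Psi (c : Fin l → ℝ) (x : Y) :
    untrop (Psi g c x) = univ.inf (fun j => ((g j x + c j : ℝ) : WithTop ℝ)) := by
  unfold Psi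
  rw [untrop_comb]
  congr 1
  ext j
  rw [untrop_trop, ← WithTop.coe_add, add_comm]

/-- `J` covers: the minimum over `J` already gives `f` -/
def Cov (J : Finset (Fin l)) (c : Fin l → ℝ) (f : Y → TT) : Prop :=
  ∀ x, J.inf (fun j => ((g j x + c j : ℝ) : WithTop ℝ)) = untrop (f x)

lemma mem_fibre_iff (c : Fin l → ℝ) (f : Y → TT) : c ∈ fibre g f ↔ Cov g univ c f := by
  constructor
  · intro h x
    rw [← untrop_Psi]
    exact congrArg untrop (congrFun h x)
  · intro h
    funext x
    apply untrop_injective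
    rw [untrop_Psi]
    exact h x

lemma Psi_mem (c : Fin l → ℝ) : Psi g c ∈ spanM g :=
  (mem_spanM_iff g _).2 ⟨fun j => trop (c j : WithTop ℝ), rfl⟩

lemma polyDim_bdd {n : ℕ} (S : Set (Fin n → ℝ)) :
    BddAbove {k | ∃ P : Set (Fin n → ℝ), IsPolyhedron P ∧ P.Nonempty ∧ P ⊆ S ∧
      Module.finrank ℝ (vectorSpan ℝ P) = k} := by
  refine ⟨n, ?_⟩
  rintro k ⟨P, -, -, -, rfl⟩
  have := Submodule.finrank_le (vectorSpan ℝ P)
  simpa using this

/-- the polyhedron with coordinates in `J` fixed and the other ones bounded below -/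
lemma isPolyhedron_orthant (J : Finset (Fin l)) (c : Fin l → ℝ) :
    IsPolyhedron {d : Fin l → ℝ | (∀ j, c j ≤ d j) ∧ ∀ j ∈ J, d j = c j} := by
  classical
  have h := isPolyhedron_of_fintype (n := l) (ι := Fin l ⊕ Fin l)
    (Sum.elim (fun k => Pi.single k (-1)) (fun k => if k ∈ J then Pi.single k 1 else 0))
    (Sum.elim (fun k => -c k) (fun k => if k ∈ J then c k else 0))
  convert h using 1
  ext d
  have e1 : ∀ k : Fin l, ∑ j, (Pi.single k (-1 : ℝ) : Fin l → ℝ) j * d j = - d k := by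
    intro k
    rw [Finset.sum_eq_single k]
    · simp
    · intro b _ hb
      rw [Pi.single_eq_of_ne hb, zero_mul]
    · intro h'; exact absurd (mem_univ k) h'
  have e2 : ∀ k : Fin l, ∑ j, (Pi.single k (1 : ℝ) : Fin l → ℝ) j * d j = d k := by
    intro k
    rw [Finset.sum_eq_single k]
    · simp
    · intro b _ hb
      rw [Pi.single_eq_of_ne hb, zero_mul]
    · intro h'; exact absurd (mem_univ k) h'
  constructor
  · rintro ⟨h1, h2⟩ (k | k)
    · simp only [Sum.elim_inl, e1]
      have := h1 k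
      linarith
    · simp only [Sum.elim_inr]
      by_cases hk : k ∈ J
      · simp only [hk, if_true, e2]
        exact (h2 k hk).le
      · simp [hk]
  · intro h'
    have h1 : ∀ j, c j ≤ d j := by
      intro k
      have := h' (Sum.inl k)
      simp only [Sum.elim_inl, e1] at this
      linarith
    refine ⟨h1, fun k hk => ?_⟩
    have := h' (Sum.inr k)
    simp only [Sum.elim_inr, hk, if_true, e2] at this
    exact le_antisymm this (h1 k)

/-- (B) every nonempty fibre has codimension at most `N g` -/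
lemma codim_le (f : Y → TT) (hf : (fibre g f).Nonempty) : l - polyDim (fibre g f) ≤ N g := by
  classical
  -- choose a covering set of smallest size
  have hex : ∃ n : ℕ, ∃ (J : Finset (Fin l)) (c : Fin l → ℝ), c ∈ fibre g f ∧ Cov g J c f ∧
      J.card = n := by
    obtain ⟨c, hc⟩ := hf
    exact ⟨_, univ, c, hc, (mem_fibre_iff g c f).1 hc, rfl⟩
  obtain ⟨J, c, hc, hJ, hcard⟩ := Nat.find_spec hex
  have hmin : ∀ J' : Finset (Fin l), Cov g J' c f → J.card ≤ J'.card := by
    intro J' h'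
    rw [hcard]
    exact Nat.find_min' hex ⟨J', c, hc, h', rfl⟩
  have hsep : SepOn g J c := by
    intro j hj
    have h1 : ¬ Cov g (J.erase j) c f := by
      intro h'
      have := hmin _ h'
      have h2 := Finset.card_erase_lt_of_mem hj
      omega
    unfold Cov at h1
    push Not at h1
    obtain ⟨x, hx⟩ := h1
    refine ⟨x, fun k hk hkj => ?_⟩
    have h2 := hJ x
    have h3 : J = insert j (J.erase j) := (Finset.insert_erase hj).symm
    rw [h3, Finset.inf_insert] at h2
    have h4 : ((g j x + c j : ℝ) : WithTop ℝ) <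
        (J.erase j).inf (fun j => ((g j x + c j : ℝ) : WithTop ℝ)) := by
      by_contra hlt
      push Not at hlt
      rw [inf_eq_right.2 hlt] at h2
      exact hx h2
    have h5 : (J.erase j).inf (fun j => ((g j x + c j : ℝ) : WithTop ℝ)) ≤
        ((g k x + c k : ℝ) : WithTop ℝ) := Finset.inf_le (by simp [hk, hkj])
    exact WithTop.coe_lt_coe.1 (lt_of_lt_of_le h4 h5)
  have hdim : l - J.card ≤ polyDim (fibre g f) := by
    let P : Set (Fin l → ℝ) := {d : Fin l → ℝ | (∀ j, c j ≤ d j) ∧ ∀ j ∈ J, d j = c j}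
    have hP : IsPolyhedron P := isPolyhedron_orthant J c
    have hcP : c ∈ P := ⟨fun j => le_rfl, fun j _ => rfl⟩
    have hPf : P ⊆ fibre g f := by
      rintro d ⟨hd1, hd2⟩
      rw [mem_fibre_iff]
      intro x
      apply le_antisymm
      · rw [← hJ x]
        apply Finset.le_inf
        intro j hj
        rw [← hd2 j hj]
        exact Finset.inf_le (mem_univ j)
      · rw [← ((mem_fibre_iff g c f).1 hc) x]
        apply Finset.le_inf
        intro j _
        refine (Finset.inf_le (mem_univ j)).trans ?_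
        rw [WithTop.coe_le_coe]
        have := hd1 j
        linarith
    refine (le_finrank_of_units P J c hcP ?_).trans
      (le_csSup (polyDim_bdd _) ⟨P, hP, ⟨c, hcP⟩, hPf, rfl⟩)
    intro k hk
    refine ⟨fun j => ?_, fun j hj => ?_⟩
    · have : (0 : ℝ) ≤ (Pi.single k (1 : ℝ) : Fin l → ℝ) j := by
        by_cases hjk : j = k
        · subst hjk; simp
        · rw [Pi.single_eq_of_ne hjk]
      simpa using this
    · have hjk : j ≠ k := fun h' => hk (h' ▸ hj)
      simp [Pi.single_eq_of_ne hjk]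
  have := le_N g ⟨J, c, hsep, rfl⟩
  omega

/-- among the points of a convex set choose one at which every nonconstant coordinate can be
decreased -/
lemma exists_interior {P : Set (Fin l → ℝ)} (hP : Convex ℝ P) (hne : P.Nonempty) :
    ∃ c ∈ P, ∀ k, (∃ d ∈ P, ∃ e ∈ P, d k ≠ e k) → ∃ d ∈ P, d k < c k := by
  classical
  let Nc : (Fin l → ℝ) → Finset (Fin l) := fun c => univ.filter (fun k => ∃ d ∈ P, d k < c k)
  have hex : ∃ c ∈ P, ∀ d ∈ P, (Nc d).card ≤ (Nc c).card := by
    have hfin : (((fun c => (Nc c).card) '' P)).Finite :=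
      (Set.finite_Iic l).subset (by
        rintro _ ⟨c, -, rfl⟩
        simpa using Finset.card_le_univ (Nc c))
    obtain ⟨_, ⟨c, hc, rfl⟩, hmax⟩ := Set.exists_max_image _ id hfin (hne.image _)
    exact ⟨c, hc, fun d hd => hmax _ ⟨d, hd, rfl⟩⟩
  obtain ⟨c, hc, hmax⟩ := hex
  refine ⟨c, hc, fun k hk => ?_⟩
  by_contra hcon
  push Not at hcon
  obtain ⟨e, he, hek⟩ : ∃ e ∈ P, c k < e k := by
    obtain ⟨d, hd, e, he, hde⟩ := hk
    rcases lt_or_ge (c k) (d k) with h1 | h1
    · exact ⟨d, hd, h1⟩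
    · rcases lt_or_ge (c k) (e k) with h2 | h2
      · exact ⟨e, he, h2⟩
      · exact absurd (((h1.antisymm (hcon d hd)).trans (h2.antisymm (hcon e he)).symm)) hde
  -- midpoint
  have hm : (1 / 2 : ℝ) • c + (1 / 2 : ℝ) • e ∈ P :=
    hP hc he (by norm_num) (by norm_num) (by norm_num)
  set m := (1 / 2 : ℝ) • c + (1 / 2 : ℝ) • e with hmdef
  have hmk : ∀ j, m j = (c j + e j) / 2 := by
    intro j
    simp only [hmdef, Pi.add_apply, Pi.smul_apply, smul_eq_mul]
    ring
  have hsub : insert k (Nc c) ⊆ Nc m := by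
    intro j hj
    rw [Finset.mem_insert] at hj
    simp only [Nc, Finset.mem_filter, Finset.mem_univ, true_and] at hj ⊢
    rcases hj with rfl | ⟨d, hd, hdj⟩
    · exact ⟨c, hc, by rw [hmk]; linarith⟩
    · rcases le_or_gt (c j) (e j) with h1 | h1
      · exact ⟨d, hd, by rw [hmk]; linarith⟩
      · exact ⟨e, he, by rw [hmk]; linarith⟩
  have hk' : k ∉ Nc c := by
    simp only [Nc, Finset.mem_filter, Finset.mem_univ, true_and]
    push Not
    exact hcon
  have h1 := Finset.card_le_card hsub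
  rw [Finset.card_insert_of_notMem hk'] at h1
  have h2 := hmax m hm
  omega

/-- genericity: a separating vector may be chosen off finitely many hyperplanes `c j - c j' = b` -/
lemma exists_generic {J : Finset (Fin l)} {c : Fin l → ℝ} (x : Fin l → Y)
    (hx : ∀ j ∈ J, ∀ k ∈ J, k ≠ j → g j (x j) + c j < g k (x j) + c k)
    (b : Fin l → Fin l → Fin l → ℝ) :
    ∃ c' : Fin l → ℝ, (∀ j ∈ J, ∀ k ∈ J, k ≠ j → g j (x j) + c' j < g k (x j) + c' k) ∧
      ∀ k j j', j ≠ j' → c' j - c' j' ≠ b k j j' := by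
  -- `c' = c + ε * j`
  have hev : ∀ᶠ ε in nhdsWithin (0 : ℝ) (Set.Ioi 0), ∀ j ∈ J, ∀ k ∈ J, k ≠ j →
      g j (x j) + (c j + ε * (j : ℝ)) < g k (x j) + (c k + ε * (k : ℝ)) := by
    apply Filter.Eventually.filter_mono nhdsWithin_le_nhds
    have : ∀ p : Fin l × Fin l, ∀ᶠ ε in nhds (0 : ℝ), p.1 ∈ J → p.2 ∈ J → p.2 ≠ p.1 →
        g p.1 (x p.1) + (c p.1 + ε * (p.1 : ℝ)) < g p.2 (x p.1) + (c p.2 + ε * (p.2 : ℝ)) := by
      rintro ⟨j, k⟩
      by_cases h : j ∈ J ∧ k ∈ J ∧ k ≠ j
      · have h1 := hx j h.1 k h.2.1 h.2.2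
        have hc1 : Continuous (fun ε : ℝ => g j (x j) + (c j + ε * (j : ℝ))) := by fun_prop
        have hc2 : Continuous (fun ε : ℝ => g k (x j) + (c k + ε * (k : ℝ))) := by fun_prop
        have h2 : ∀ᶠ ε in nhds (0 : ℝ), g j (x j) + (c j + ε * (j : ℝ)) <
            g k (x j) + (c k + ε * (k : ℝ)) := by
          apply Filter.Tendsto.eventually_lt (hc1.tendsto 0) (hc2.tendsto 0)
          simpa using h1
        filter_upwards [h2] with ε hε _ _ _
        exact hε
      · filter_upwards with ε h1 h2 h3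
        exact absurd ⟨h1, h2, h3⟩ h
    have h2 := Filter.eventually_all.2 this
    filter_upwards [h2] with ε hε j hj k hk hkj
    exact hε (j, k) hj hk hkj
  have hfin : (⋃ p : Fin l × Fin l × Fin l, {ε : ℝ | p.2.1 ≠ p.2.2 ∧
      (c p.2.1 + ε * (p.2.1 : ℝ)) - (c p.2.2 + ε * (p.2.2 : ℝ)) = b p.1 p.2.1 p.2.2}).Finite := by
    apply Set.finite_iUnion
    rintro ⟨k, j, j'⟩
    by_cases h : j = j'
    · subst h; simp
    · apply Set.Subsingleton.finite
      rintro ε ⟨-, h1⟩ ε' ⟨-, h2⟩
      simp only at h1 h2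
      have h3 : (ε - ε') * ((j : ℝ) - (j' : ℝ)) = 0 := by linarith
      rcases mul_eq_zero.1 h3 with h4 | h4
      · linarith
      · exfalso
        apply h
        apply Fin.ext
        have h5 : (j : ℝ) = (j' : ℝ) := by linarith
        exact_mod_cast h5
  have hev2 : ∀ᶠ ε in nhdsWithin (0 : ℝ) (Set.Ioi 0), ε ∉ (⋃ p : Fin l × Fin l × Fin l,
      {ε : ℝ | p.2.1 ≠ p.2.2 ∧
      (c p.2.1 + ε * (p.2.1 : ℝ)) - (c p.2.2 + ε * (p.2.2 : ℝ)) = b p.1 p.2.1 p.2.2}) := by
    have h1 : ∀ᶠ ε in nhdsWithin (0 : ℝ) (Set.Ioi 0), ε ∉ ((⋃ p : Fin l × Fin l × Fin l,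
      {ε : ℝ | p.2.1 ≠ p.2.2 ∧
      (c p.2.1 + ε * (p.2.1 : ℝ)) - (c p.2.2 + ε * (p.2.2 : ℝ)) = b p.1 p.2.1 p.2.2}) \ {0}) := by
      apply Filter.Eventually.filter_mono nhdsWithin_le_nhds
      have hclosed := (hfin.subset (Set.sdiff_subset (t := {0}))).isClosed
      exact hclosed.isOpen_compl.mem_nhds (by simp)
    filter_upwards [h1, self_mem_nhdsWithin] with ε hε hpos hmem
    exact hε ⟨hmem, by simpa using (Set.mem_Ioi.1 hpos).ne'⟩
  obtain ⟨ε, h1, h2⟩ := (hev.and hev2).exists
  refine ⟨fun j => c j + ε * (j : ℝ), h1, fun k j j' hjj h => h2 ?_⟩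
  exact Set.mem_iUnion.2 ⟨(k, j, j'), hjj, h⟩

/-- (A) some fibre has codimension at least `N g` -/
lemma le_codim {J : Finset (Fin l)} {c : Fin l → ℝ} (hJ : SepOn g J c) :
    ∃ f ∈ spanM g, (fibre g f).Nonempty ∧ J.card ≤ l - polyDim (fibre g f) := by
  classical
  rcases J.eq_empty_or_nonempty with rfl | ⟨j0, hj0⟩
  · exact ⟨Psi g c, Psi_mem g c, ⟨c, rfl⟩, by simp⟩
  -- points
  obtain ⟨y0, -⟩ := hJ j0 hj0
  have hch : ∀ j, ∃ x : Y, j ∈ J → ∀ k ∈ J, k ≠ j → g j x + c j < g k x + c k := by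
    intro j
    by_cases hj : j ∈ J
    · obtain ⟨x, hx⟩ := hJ j hj
      exact ⟨x, fun _ => hx⟩
    · exact ⟨y0, fun h => absurd h hj⟩
  choose x hx using hch
  obtain ⟨c', hc', hgen⟩ := exists_generic g x (fun j hj => hx j hj)
    (fun k j j' => (g k (x j) - g j (x j)) - (g k (x j') - g j' (x j')))
  -- make the other generators large
  obtain ⟨B, hB⟩ := Finite.bddAbove_range (fun p : Fin l × Fin l =>
    g p.1 (x p.1) + c' p.1 - g p.2 (x p.1))
  let c2 : Fin l → ℝ := fun k => if k ∈ J then c' k else B + 1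
  have hc2J : ∀ k ∈ J, c2 k = c' k := fun k hk => by simp [c2, hk]
  have hc2 : ∀ j ∈ J, ∀ k, k ≠ j → g j (x j) + c2 j < g k (x j) + c2 k := by
    intro j hj k hkj
    rw [hc2J j hj]
    by_cases hk : k ∈ J
    · rw [hc2J k hk]
      exact hc' j hj k hk hkj
    · have h1 := hB ⟨(j, k), rfl⟩
      simp only [c2, hk, if_false]
      simp only at h1
      linarith
  refine ⟨Psi g c2, Psi_mem g c2, ⟨c2, rfl⟩, ?_⟩
  -- the values at the points `x j`
  have hval : ∀ j ∈ J, untrop (Psi g c2 (x j)) = ((g j (x j) + c2 j : ℝ) : WithTop ℝ) := by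
    intro j hj
    rw [untrop_Psi]
    apply le_antisymm
    · exact Finset.inf_le (mem_univ j)
    · apply Finset.le_inf
      intro k _
      rw [WithTop.coe_le_coe]
      by_cases hkj : k = j
      · rw [hkj]
      · exact (hc2 j hj k hkj).le
  have hle : polyDim (fibre g (Psi g c2)) ≤ l - J.card := by
    unfold polyDim
    have hne : Set.Nonempty {k | ∃ P : Set (Fin l → ℝ), IsPolyhedron P ∧ P.Nonempty ∧
        P ⊆ fibre g (Psi g c2) ∧ Module.finrank ℝ (vectorSpan ℝ P) = k} := by
      refine ⟨_, {d : Fin l → ℝ | (∀ j, c2 j ≤ d j) ∧ ∀ j ∈ (univ : Finset (Fin l)), d j = c2 j},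
        isPolyhedron_orthant univ c2, ⟨c2, fun j => le_rfl, fun j _ => rfl⟩, ?_, rfl⟩
      rintro d ⟨-, hd⟩
      have : d = c2 := funext fun j => hd j (mem_univ j)
      rw [this]
      rfl
    apply csSup_le hne
    rintro _ ⟨P, hP, hPne, hPf, rfl⟩
    obtain ⟨e, heP, he⟩ := exists_interior hP.convex hPne
    let K : Finset (Fin l) := univ.filter (fun k => ∀ d ∈ P, ∀ d' ∈ P, d k = d' k)
    have hK : ∀ k, k ∉ K → ∃ d ∈ P, d k < e k := by
      intro k hk
      apply he
      simp only [K, Finset.mem_filter, Finset.mem_univ, true_and] at hk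
      push Not at hk
      exact hk
    -- inequalities valid on the whole fibre
    have hfib : ∀ d ∈ P, ∀ j ∈ J, ∀ k, g j (x j) + c2 j ≤ g k (x j) + d k := by
      intro d hd j hj k
      have h1 := (mem_fibre_iff g d _).1 (hPf hd) (x j)
      rw [hval j hj] at h1
      have h2 : univ.inf (fun k => ((g k (x j) + d k : ℝ) : WithTop ℝ)) ≤
          ((g k (x j) + d k : ℝ) : WithTop ℝ) := Finset.inf_le (mem_univ k)
      rw [h1, WithTop.coe_le_coe] at h2
      exact h2
    have hatt : ∀ j ∈ J, ∃ k ∈ K, g j (x j) + c2 j = g k (x j) + e k := by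
      intro j hj
      have h1 := (mem_fibre_iff g e _).1 (hPf heP) (x j)
      obtain ⟨k, -, hk⟩ := Finset.exists_mem_eq_inf univ ⟨j, mem_univ j⟩
        (fun k => ((g k (x j) + e k : ℝ) : WithTop ℝ))
      rw [h1, hval j hj, WithTop.coe_inj] at hk
      refine ⟨k, ?_, hk⟩
      by_contra hkK
      obtain ⟨d, hd, hdk⟩ := hK k hkK
      have := hfib d hd j hj k
      linarith
    choose! κ hκK hκ using hatt
    have hinj : Set.InjOn κ (J : Set (Fin l)) := by
      intro j hj j' hj' hjj
      by_contra hne'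
      have h1 := hκ j hj
      have h2 := hκ j' hj'
      rw [← hjj] at h2
      by_cases hkJ : κ j ∈ J
      · -- one of `j`, `j'` differs from `κ j`
        have hge := hfib e heP (κ j) hkJ (κ j)
        by_cases hkj : κ j = j
        · have hkj' : κ j ≠ j' := fun h => hne' (hkj.symm.trans h)
          have h3 := hc2 j' hj' (κ j) hkj'
          linarith
        · have h3 := hc2 j hj (κ j) hkj
          linarith
      · have h3 := hgen (κ j) j j' hne'
        apply h3
        rw [hc2J j hj] at h1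
        rw [hc2J j' hj'] at h2
        linarith
    have hcard : J.card ≤ K.card := by
      rw [← Finset.card_image_of_injOn hinj]
      apply Finset.card_le_card
      intro k hk
      obtain ⟨j, hj, rfl⟩ := Finset.mem_image.1 hk
      exact hκK j hj
    refine (finrank_le_of_const P K ?_).trans (by omega)
    intro c hc d hd k hk
    simp only [K, Finset.mem_filter, Finset.mem_univ, true_and] at hk
    exact hk c hc d hd
  have hJl : J.card ≤ l := by simpa using Finset.card_le_univ J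
  omega

theorem dimM_eq : dimM (spanM g) g = N g := by
  unfold dimM
  obtain ⟨J, c, hJ, hcard⟩ := N_mem g
  obtain ⟨f, hf, hne, hle⟩ := le_codim g hJ
  have hub : ∀ k ∈ {k | ∃ f ∈ spanM g, (fibre g f).Nonempty ∧ k = l - polyDim (fibre g f)},
      k ≤ N g := by
    rintro k ⟨f, -, hf, rfl⟩
    exact codim_le g f hf
  apply le_antisymm
  · exact csSup_le ⟨_, f, hf, hne, rfl⟩ hub
  · rw [← hcard]
    exact hle.trans (le_csSup ⟨N g, hub⟩ ⟨f, hf, hne, rfl⟩)

end Pool.Agent.Lib.MP_8916ec_co
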