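import Pool.Agent.Lib.MP_8916ec_co.Dimension

set_option autoImplicit false

namespace Pool.Agent.Lib.MP_8916ec_co

open Finset Tropical

lemma sizes_top {Y : Type*} {l : ℕ} (g : Fin l → Y → ℝ) (c : Fin l → ℝ)
    (h : SepOn g univ c) : N g = l := by
  apply le_antisymm (sizes_le g (N_mem g))
  exact le_N g ⟨univ, c, h, by simp⟩

lemma bounded_of_compact {d : ℕ} {Y : Set (Fin d → ℝ)} (hY : IsCompact Y) {l : ℕ}
    (g : Fin l → Y → ℝ) (hg : ∀ j, Continuous (g j)) :
    ∀ i j, ∃ B : ℝ, ∀ x, g i x - g j x ≤ B := by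
  intro i j
  have : CompactSpace Y := isCompact_iff_compactSpace.1 hY
  have hc : Continuous (fun x => g i x - g j x) := (hg i).sub (hg j)
  obtain ⟨B, hB⟩ := (isCompact_range hc).bddAbove
  exact ⟨B, fun x => hB ⟨x, rfl⟩⟩

theorem main_general {Y : Type*} {l : ℕ} (g : Fin l → Y → ℝ) (M : Submodule TT (Y → TT))
    (hM : M = Submodule.span TT (Set.range fun j => toT (g j))) :
    tropRankT M = dimM M g ∧
    ((∀ i j, ∃ B : ℝ, ∀ x, g i x - g j x ≤ B) → tropRank M = dimM M g) ∧
    ((∃ i j, ∀ B : ℝ, ∃ x, B < g i x - g j x) → tropRank M = ⊤) := by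
  have hM' : M = spanM g := hM
  rw [hM', dimM_eq]
  exact ⟨tropRankT_eq g, tropRank_eq_of_bounded g, fun ⟨i, j, h⟩ => tropRank_eq_top g h⟩

/-- the generators `0` and `x` on the real line -/
def lineGen (j : Fin 2) (x : (Set.univ : Set (Fin 1 → ℝ))) : ℝ := if j = 0 then 0 else x.1 0

theorem line_example :
    IsPolyhedralSubspace (Set.univ : Set (Fin 1 → ℝ)) ∧ (∀ j, IsPL Set.univ (lineGen j)) ∧
    tropRank (Submodule.span TT (Set.range fun j => toT (lineGen j))) = ⊤ ∧
    dimM (Submodule.span TT (Set.range fun j => toT (lineGen j))) lineGen = 2 := by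
  have hP : IsPolyhedron (Set.univ : Set (Fin 1 → ℝ)) :=
    ⟨0, fun _ _ => 0, fun _ => 0, by ext x; simp⟩
  have hU : (Set.univ : Set (Fin 1 → ℝ)) = ⋃ _ : Fin 1, Set.univ := (Set.iUnion_const _).symm
  refine ⟨⟨1, fun _ => Set.univ, fun _ => hP, hU⟩, ?_, ?_, ?_⟩
  · intro j
    constructor
    · unfold lineGen
      by_cases hj : j = 0
      · simp only [hj, if_true]; exact continuous_const
      · simp only [hj, if_false]
        exact (continuous_apply 0).comp continuous_subtype_val
    · refine ⟨1, fun _ => Set.univ, fun _ => hP, hU, fun _ => ?_⟩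
      by_cases hj : j = 0
      · refine ⟨fun _ => 0, 0, fun x _ => ?_⟩
        simp [lineGen, hj]
      · refine ⟨fun _ => 1, 0, fun x _ => ?_⟩
        simp [lineGen, hj]
  · apply tropRank_eq_top lineGen (p := 1) (q := 0)
    intro B
    refine ⟨⟨fun _ => B + 1, trivial⟩, ?_⟩
    simp [lineGen]
  · rw [show Submodule.span TT (Set.range fun j => toT (lineGen j)) = spanM lineGen from rfl,
      dimM_eq]
    apply sizes_top lineGen (fun _ => 0)
    intro j _
    fin_cases j
    · refine ⟨⟨fun _ => 1, trivial⟩, fun k _ hk => ?_⟩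
      have hk : k = 1 := by
        fin_cases k
        · exact absurd rfl hk
        · rfl
      subst hk
      simp [lineGen]
    · refine ⟨⟨fun _ => -1, trivial⟩, fun k _ hk => ?_⟩
      have hk : k = 0 := by
        fin_cases k
        · rfl
        · exact absurd rfl hk
      subst hk
      simp [lineGen]

end Pool.Agent.Lib.MP_8916ec_co
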