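import Pool.Agent.Lib.MP_8916ec_co.Defs

set_option autoImplicit false

namespace Pool.Agent.Lib.MP_8916ec_co

open Finset

/-- `Sep f c`: every index is the unique minimiser of `f i x + c i` at some point. -/
def Sep {Y : Type*} {r : ℕ} (f : Fin r → Y → ℝ) (c : Fin r → ℝ) : Prop :=
  ∀ i, ∃ x, ∀ k, k ≠ i → f i x + c i < f k x + c k

section perron

variable {Y : Type*} {n : ℕ} (f : Fin (n + 2) → Y → ℝ)

lemma erase_nonempty (j : Fin (n + 2)) : (univ.erase j).Nonempty := by
  obtain ⟨k, hk⟩ := exists_ne j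
  exact ⟨k, by simp [hk]⟩

/-- minimum over the indices different from `j` -/
noncomputable def mn (c : Fin (n + 2) → ℝ) (j : Fin (n + 2)) (x : Y) : ℝ :=
  (univ.erase j).inf' (erase_nonempty j) (fun i => f i x + c i)

lemma mn_le (c : Fin (n + 2) → ℝ) {i j : Fin (n + 2)} (x : Y) (h : i ≠ j) :
    mn f c j x ≤ f i x + c i :=
  Finset.inf'_le _ (by simp [h])

lemma exists_mn (c : Fin (n + 2) → ℝ) (j : Fin (n + 2)) (x : Y) :
    ∃ i, i ≠ j ∧ mn f c j x = f i x + c i := by
  obtain ⟨i, hi, h⟩ := Finset.exists_mem_eq_inf' (erase_nonempty j) (fun i => f i x + c i)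
  exact ⟨i, by simpa using hi, h⟩

/-- the operator whose additive eigenvectors we want -/
noncomputable def phi (c : Fin (n + 2) → ℝ) : Fin (n + 2) → ℝ :=
  fun j => ⨆ x, (mn f c j x - f j x)

variable {f} {R : ℝ} (hR : ∀ i j x, f i x - f j x ≤ R)
include hR

lemma bdd (c : Fin (n + 2) → ℝ) (j : Fin (n + 2)) :
    BddAbove (Set.range fun x => mn f c j x - f j x) := by
  refine ⟨R + ‖c‖, ?_⟩
  rintro _ ⟨x, rfl⟩
  obtain ⟨i, hi, h⟩ := exists_mn f c j x
  have h1 := hR i j x
  have h2 : c i ≤ ‖c‖ := (le_abs_self _).trans (norm_le_pi_norm c i)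
  simp only [h]
  linarith

lemma le_phi (c : Fin (n + 2) → ℝ) (j : Fin (n + 2)) (x : Y) :
    mn f c j x - f j x ≤ phi f c j := le_ciSup (bdd hR c j) x

lemma phi_le_of [Nonempty Y] (c : Fin (n + 2) → ℝ) {i j : Fin (n + 2)} (h : i ≠ j) :
    phi f c j ≤ R + c i := by
  apply ciSup_le
  intro x
  have h1 := hR i j x
  have h2 := mn_le f c x h
  linarith

lemma le_phi_of [Nonempty Y] (c : Fin (n + 2) → ℝ) (j : Fin (n + 2)) (b : ℝ)
    (h : ∀ i, i ≠ j → b ≤ c i) : b - R ≤ phi f c j := by
  obtain ⟨x⟩ := ‹Nonempty Y›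
  refine le_trans ?_ (le_phi hR c j x)
  obtain ⟨i, hi, h'⟩ := exists_mn f c j x
  rw [h']
  have h1 := hR j i x
  have h2 := h i hi
  linarith

lemma phi_le_add [Nonempty Y] (c d : Fin (n + 2) → ℝ) (j : Fin (n + 2)) :
    phi f c j ≤ phi f d j + ‖c - d‖ := by
  apply ciSup_le
  intro x
  obtain ⟨i, hi, h⟩ := exists_mn f d j x
  have h1 := mn_le f c x hi
  have h2 := le_phi hR d j x
  have h3 : (c - d) i ≤ ‖c - d‖ := (le_abs_self _).trans (norm_le_pi_norm (c - d) i)
  simp only [Pi.sub_apply] at h3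
  linarith

lemma phi_lip [Nonempty Y] (c d : Fin (n + 2) → ℝ) : ‖phi f c - phi f d‖ ≤ ‖c - d‖ := by
  rw [pi_norm_le_iff_of_nonneg (norm_nonneg _)]
  intro j
  have h1 := phi_le_add hR c d j
  have h2 := phi_le_add hR d c j
  rw [← norm_neg (d - c), neg_sub] at h2
  rw [Pi.sub_apply, Real.norm_eq_abs, abs_le]
  constructor <;> linarith

lemma phi_cont [Nonempty Y] : Continuous (phi f) := by
  have : LipschitzWith 1 (phi f) := by
    apply LipschitzWith.of_dist_le_mul
    intro c d
    rw [dist_eq_norm, dist_eq_norm]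
    simpa using phi_lip hR c d
  exact this.continuous

lemma phi_add_const [Nonempty Y] (c : Fin (n + 2) → ℝ) (t : ℝ) (j : Fin (n + 2)) :
    phi f (fun i => c i + t) j = phi f c j + t := by
  have key : ∀ (c : Fin (n + 2) → ℝ) (t : ℝ), phi f (fun i => c i + t) j ≤ phi f c j + t := by
    intro c t
    apply ciSup_le
    intro x
    obtain ⟨i, hi, h⟩ := exists_mn f c j x
    have h1 := mn_le f (fun i => c i + t) x hi
    have h2 := le_phi hR c j x
    linarith
  apply le_antisymm (key c t)
  have := key (fun i => c i + t) (-t)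
  simp only [add_neg_cancel_right] at this
  linarith

/-- fixed points of the discounted operator -/
lemma exists_fix [Nonempty Y] {α : ℝ} (h0 : 0 ≤ α) (h1 : α < 1) :
    ∃ v : Fin (n + 2) → ℝ, phi f (fun i => α * v i) = v := by
  have hc : ContractingWith ⟨α, h0⟩ (fun v : Fin (n + 2) → ℝ => phi f (fun i => α * v i)) := by
    refine ⟨by exact_mod_cast h1, ?_⟩
    apply LipschitzWith.of_dist_le_mul
    intro v w
    rw [dist_eq_norm, dist_eq_norm]
    refine (phi_lip hR _ _).trans ?_
    have : ((fun i => α * v i) - fun i => α * w i) = α • (v - w) := by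
      ext i; simp [mul_sub]
    rw [this, norm_smul, Real.norm_eq_abs, abs_of_nonneg h0]
    rfl
  exact ⟨hc.fixedPoint, hc.fixedPoint_isFixedPt⟩

/-- the coordinates of such a fixed point are uniformly close to each other -/
lemma fix_bound [Nonempty Y] {α : ℝ} (h0 : 0 ≤ α) {v : Fin (n + 2) → ℝ}
    (hv : phi f (fun i => α * v i) = v) (i j : Fin (n + 2)) : v i - v j ≤ 4 * R := by
  have hR0 : 0 ≤ R := by
    obtain ⟨x⟩ := ‹Nonempty Y›
    have := hR 0 0 x
    linarith
  obtain ⟨a, -, ha⟩ := Finset.exists_min_image univ v ⟨0, mem_univ _⟩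
  have ha' : ∀ i, v a ≤ v i := fun i => ha i (mem_univ i)
  obtain ⟨b, hb, hb'⟩ := Finset.exists_min_image (univ.erase a) v (erase_nonempty a)
  have hba : b ≠ a := by simpa using hb
  have hb'' : ∀ i, i ≠ a → v b ≤ v i := fun i hi => hb' i (by simp [hi])
  -- upper bounds
  have hup : ∀ j, j ≠ a → v j ≤ R + α * v a := by
    intro j hj
    have := phi_le_of hR (fun i => α * v i) (i := a) (j := j) (Ne.symm hj)
    rw [hv] at this
    exact this
  have hlow : α * v b - R ≤ v a := by
    have := le_phi_of hR (fun i => α * v i) a (α * v b)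
      (fun i hi => mul_le_mul_of_nonneg_left (hb'' i hi) h0)
    rw [hv] at this
    exact this
  have hlow' : ∀ j, α * v a - R ≤ v j := by
    intro j
    have := le_phi_of hR (fun i => α * v i) j (α * v a)
      (fun i hi => mul_le_mul_of_nonneg_left (ha' i) h0)
    rw [hv] at this
    exact this
  have h2 : v b - v a ≤ 2 * R := by
    have h3 := hup b hba
    have h4 : (1 + α) * (v b - v a) ≤ 2 * R := by nlinarith
    have h5 : 0 ≤ v b - v a := sub_nonneg.2 (ha' b)
    nlinarith
  have h3 : v i - v a ≤ 4 * R := by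
    by_cases hi : i = a
    · subst hi; simpa using hR0
    · have h4 := hup i hi
      have h5 := hlow' b
      linarith
  have := ha' j
  linarith

/-- existence of an additive eigenvector -/
lemma exists_eigen [Nonempty Y] :
    ∃ (w : Fin (n + 2) → ℝ) (lam : ℝ), ∀ j, phi f w j = w j + lam := by
  have hR0 : 0 ≤ R := by
    obtain ⟨x⟩ := ‹Nonempty Y›
    have := hR 0 0 x
    linarith
  let α : ℕ → ℝ := fun m => 1 - 1 / ((m : ℝ) + 1)
  have hα0 : ∀ m, 0 ≤ α m := by
    intro m
    have : 1 / ((m : ℝ) + 1) ≤ 1 := by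
      rw [div_le_one (by positivity)]
      have : (0 : ℝ) ≤ m := by positivity
      linarith
    simp only [α]; linarith
  have hα1 : ∀ m, α m < 1 := by
    intro m
    have : 0 < 1 / ((m : ℝ) + 1) := by positivity
    simp only [α]; linarith
  have hαlim : Filter.Tendsto α Filter.atTop (nhds 1) := by
    have := tendsto_one_div_add_atTop_nhds_zero_nat (𝕜 := ℝ)
    have h := (tendsto_const_nhds (x := (1 : ℝ))).sub this
    rw [sub_zero] at h
    exact h
  choose v hv using fun m => exists_fix (n := n) hR (hα0 m) (hα1 m)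
  let w : ℕ → Fin (n + 2) → ℝ := fun m i => v m i - v m 0
  let lam : ℕ → ℝ := fun m => (1 - α m) * v m 0
  have hw : ∀ m j, phi f (fun i => α m * w m i) j = w m j + lam m := by
    intro m j
    have h1 : phi f (fun i => α m * v m i) j = v m j := by rw [hv m]
    have h2 : (fun i => α m * v m i) = fun i => (α m * w m i) + α m * v m 0 := by
      ext i; simp only [w]; ring
    rw [h2, phi_add_const hR] at h1
    simp only [w, lam] at h1 ⊢
    linarith
  have hwb : ∀ m, w m ∈ Metric.closedBall (0 : Fin (n + 2) → ℝ) (4 * R) := by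
    intro m
    rw [mem_closedBall_zero_iff, pi_norm_le_iff_of_nonneg (by positivity)]
    intro i
    rw [Real.norm_eq_abs, abs_le]
    have h1 := fix_bound hR (hα0 m) (hv m) i 0
    have h2 := fix_bound hR (hα0 m) (hv m) 0 i
    simp only [w]
    constructor <;> linarith
  obtain ⟨w0, -, s, hs, hlim⟩ := (isCompact_closedBall (0 : Fin (n + 2) → ℝ) (4 * R)).tendsto_subseq
    hwb
  refine ⟨w0, phi f w0 0 - w0 0, ?_⟩
  intro j
  have hlimα : Filter.Tendsto (fun m => α (s m)) Filter.atTop (nhds 1) :=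
    hαlim.comp hs.tendsto_atTop
  have hlim1 : Filter.Tendsto (fun m => (fun i => α (s m) * w (s m) i : Fin (n + 2) → ℝ))
      Filter.atTop (nhds w0) := by
    rw [tendsto_pi_nhds]
    intro i
    have h1 := (tendsto_pi_nhds.1 hlim) i
    have := hlimα.mul h1
    simpa using this
  have hlim2 : ∀ j, Filter.Tendsto (fun m => phi f (fun i => α (s m) * w (s m) i) j)
      Filter.atTop (nhds (phi f w0 j)) := by
    intro j
    have h1 := ((phi_cont hR).tendsto w0).comp hlim1
    exact (tendsto_pi_nhds.1 h1) j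
  have hlim3 : ∀ j, Filter.Tendsto (fun m => lam (s m)) Filter.atTop
      (nhds (phi f w0 j - w0 j)) := by
    intro j
    have h1 := (hlim2 j).sub ((tendsto_pi_nhds.1 hlim) j)
    refine h1.congr ?_
    intro m
    have := hw (s m) j
    simp only [Function.comp]
    linarith
  have := tendsto_nhds_unique (hlim3 j) (hlim3 0)
  linarith

end perron

/-- The key lemma: an independent family with bounded differences can be separated. -/
theorem exists_sep {Y : Type*} {r : ℕ} (f : Fin r → Y → ℝ) (R : ℝ)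
    (hR : ∀ i j x, f i x - f j x ≤ R) (hf : ¬ TropDependent f) : ∃ c, Sep f c := by
  rcases isEmpty_or_nonempty Y with hY | hY
  · exact absurd ⟨fun _ => 0, fun x => hY.elim x⟩ hf
  match r, f, hR, hf with
  | 0, f, _, _ => exact ⟨fun _ => 0, fun i => i.elim0⟩
  | 1, f, _, _ =>
    refine ⟨fun _ => 0, fun i => ?_⟩
    obtain ⟨x⟩ := hY
    exact ⟨x, fun k hk => absurd (Subsingleton.elim k i) hk⟩
  | n + 2, f, hR, hf =>
    obtain ⟨w, lam, hw⟩ := exists_eigen hR
    by_cases hl : lam ≤ 0
    · exfalso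
      apply hf
      refine ⟨w, fun x => ?_⟩
      obtain ⟨i, -, hi⟩ := Finset.exists_min_image univ (fun i => f i x + w i) ⟨0, mem_univ _⟩
      obtain ⟨j, hji, hj⟩ := exists_mn f w i x
      refine ⟨i, j, Ne.symm hji, ?_, fun k => hi k (mem_univ k)⟩
      apply le_antisymm (hi j (mem_univ j))
      have h1 := le_phi hR w i x
      have h2 := hw i
      linarith
    · push Not at hl
      refine ⟨w, fun j => ?_⟩
      have h1 : w j < phi f w j := by rw [hw j]; linarith
      obtain ⟨x, hx⟩ := exists_lt_of_lt_ciSup h1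
      refine ⟨x, fun k hk => ?_⟩
      have h2 := mn_le f w x hk
      linarith

end Pool.Agent.Lib.MP_8916ec_co
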