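import Pool.Agent.Lib.MP_8916ec_co.Compactness

set_option autoImplicit false

namespace Pool.Agent.Lib.MP_8916ec_co

open Finset Tropical

variable {Y : Type*} {l : ℕ} (g : Fin l → Y → ℝ)

/-- the semimodule generated by `g` -/
noncomputable def spanM : Submodule TT (Y → TT) := Submodule.span TT (Set.range fun j => toT (g j))

/-- separation on a set `J` of indices -/
def SepOn (J : Finset (Fin l)) (c : Fin l → ℝ) : Prop :=
  ∀ j ∈ J, ∃ x, ∀ k ∈ J, k ≠ j → g j x + c j < g k x + c k

lemma untrop_comb (a : Fin l → TT) (x : Y) :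
    untrop ((∑ j, a j • toT (g j)) x) = univ.inf (fun j => untrop (a j) + (g j x : WithTop ℝ)) := by
  rw [Finset.sum_apply, Finset.untrop_sum']
  rfl

lemma mem_spanM_iff (f : Y → TT) :
    f ∈ spanM g ↔ ∃ a : Fin l → TT, ∑ j, a j • toT (g j) = f := by
  unfold spanM
  rw [Submodule.mem_span_range_iff_exists_fun]

lemma gen_mem (j : Fin l) : toT (g j) ∈ spanM g :=
  Submodule.subset_span ⟨j, rfl⟩

/-- (D) a separated family in the span yields a separated set of generators of the same size -/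
lemma sepOn_of_sep {r : ℕ} (f : Fin r → Y → ℝ) (hf : ∀ i, toT (f i) ∈ spanM g)
    (c : Fin r → ℝ) (hc : Sep f c) : ∃ (J : Finset (Fin l)) (b : Fin l → ℝ), SepOn g J b ∧
      J.card = r := by
  choose x hx using hc
  have h1 : ∀ i, ∃ (j : Fin l) (α : ℝ), f i (x i) = g j (x i) + α ∧ ∀ y, f i y ≤ g j y + α := by
    intro i
    obtain ⟨a, ha⟩ := (mem_spanM_iff g _).1 (hf i)
    have h2 : ∀ y, (f i y : WithTop ℝ) = univ.inf (fun j => untrop (a j) + (g j y : WithTop ℝ)) := by
      intro y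
      rw [← untrop_comb g a y, ha]
      rfl
    have hne : (univ : Finset (Fin l)).Nonempty := by
      by_contra hne
      rw [Finset.not_nonempty_iff_eq_empty] at hne
      have := h2 (x i)
      rw [hne, Finset.inf_empty] at this
      exact WithTop.coe_ne_top this
    obtain ⟨j, -, hj⟩ := Finset.exists_mem_eq_inf univ hne
      (fun j => untrop (a j) + (g j (x i) : WithTop ℝ))
    rw [← h2 (x i)] at hj
    have hfin : untrop (a j) ≠ ⊤ := by
      intro h
      rw [h, top_add] at hj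
      exact WithTop.coe_ne_top hj
    obtain ⟨α, hα⟩ := WithTop.ne_top_iff_exists.1 hfin
    refine ⟨j, α, ?_, ?_⟩
    · rw [← hα, ← WithTop.coe_add, WithTop.coe_inj] at hj
      rw [hj, add_comm]
    · intro y
      have h3 : (f i y : WithTop ℝ) ≤ untrop (a j) + (g j y : WithTop ℝ) := by
        rw [h2 y]
        exact Finset.inf_le (mem_univ j)
      rw [← hα, ← WithTop.coe_add, WithTop.coe_le_coe] at h3
      linarith
  choose j α hj hα using h1
  have hlt : ∀ i i', i' ≠ i → g (j i) (x i) + (α i + c i) < g (j i') (x i) + (α i' + c i') := by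
    intro i i' h
    have h1 := hx i i' h
    have h2 := hj i
    have h3 := hα i' (x i)
    linarith
  have hinj : Function.Injective j := by
    intro i i' h
    by_contra hne
    have h1 := hlt i i' (Ne.symm hne)
    have h2 := hlt i' i hne
    rw [h] at h1
    rw [h] at h2
    linarith
  refine ⟨univ.image j, Function.extend j (fun i => α i + c i) 0, ?_, ?_⟩
  · intro k hk
    obtain ⟨i, -, rfl⟩ := Finset.mem_image.1 hk
    refine ⟨x i, ?_⟩
    intro k' hk' hne
    obtain ⟨i', -, rfl⟩ := Finset.mem_image.1 hk'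
    rw [hinj.extend_apply, hinj.extend_apply]
    exact hlt i i' (fun h => hne (by rw [h]))
  · rw [Finset.card_image_of_injective _ hinj]
    simp

lemma sep_embed {J : Finset (Fin l)} {c : Fin l → ℝ} (h : SepOn g J c) :
    Sep (fun i => g (J.orderEmbOfFin rfl i)) (fun i => c (J.orderEmbOfFin rfl i)) := by
  intro i
  obtain ⟨x, hx⟩ := h _ (J.orderEmbOfFin_mem rfl i)
  refine ⟨x, fun k hk => ?_⟩
  apply hx _ (J.orderEmbOfFin_mem rfl k)
  intro h'
  exact hk ((J.orderEmbOfFin rfl).injective h')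

lemma Sep.injective {r : ℕ} {f : Fin r → Y → ℝ} {c : Fin r → ℝ} (h : Sep f c) :
    Function.Injective f := by
  intro i i' hii
  by_contra hne
  obtain ⟨x, hx⟩ := h i
  obtain ⟨y, hy⟩ := h i'
  have h1 := hx i' (Ne.symm hne)
  have h2 := hy i hne
  rw [hii] at h1 h2
  linarith

lemma Sep.not_dependentT {r : ℕ} {f : Fin r → Y → ℝ} {c : Fin r → ℝ} (h : Sep f c) :
    ¬ TropDependentT f := by
  rintro ⟨b, ⟨a, ha⟩, hb⟩
  -- among the indices with finite coefficient choose one minimising `b i - c i`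
  let S : Finset (Fin r) := univ.filter (fun i => b i ≠ ⊤)
  have hS : S.Nonempty := ⟨a, by simp [S, ha]⟩
  obtain ⟨i, hiS, hi⟩ := Finset.exists_min_image S (fun i => (b i).untopD 0 - c i) hS
  have hib : b i ≠ ⊤ := by simpa [S] using hiS
  obtain ⟨x, hx⟩ := h i
  obtain ⟨p, q, hpq, h1, h2⟩ := hb x
  have key : ∀ k, k ≠ i → (f i x : WithTop ℝ) + b i < (f k x : WithTop ℝ) + b k := by
    intro k hk
    obtain ⟨βi, hβi⟩ := WithTop.ne_top_iff_exists.1 hib
    by_cases hbk : b k = ⊤
    · rw [hbk, add_top, ← hβi, ← WithTop.coe_add]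
      exact WithTop.coe_lt_top _
    · obtain ⟨βk, hβk⟩ := WithTop.ne_top_iff_exists.1 hbk
      have h3 := hi k (by simp [S, hbk])
      rw [← hβi, ← hβk] at h3
      simp only [WithTop.untopD_coe] at h3
      rw [← hβi, ← hβk, ← WithTop.coe_add, ← WithTop.coe_add, WithTop.coe_lt_coe]
      have h4 := hx k hk
      linarith
  by_cases hp : p = i
  · subst hp
    exact absurd h1 (key q (Ne.symm hpq)).ne
  · exact absurd (h2 i) (not_le.2 (key p hp))

lemma TropDependent.toT {r : ℕ} {f : Fin (r + 1) → Y → ℝ} (h : TropDependent f) :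
    TropDependentT f := by
  obtain ⟨c, hc⟩ := h
  refine ⟨fun i => (c i : WithTop ℝ), ⟨0, WithTop.coe_ne_top⟩, fun x => ?_⟩
  obtain ⟨i, j, hij, h1, h2⟩ := hc x
  refine ⟨i, j, hij, ?_, fun k => ?_⟩
  · rw [← WithTop.coe_add, ← WithTop.coe_add, h1]
  · rw [← WithTop.coe_add, ← WithTop.coe_add, WithTop.coe_le_coe]
    exact h2 k

lemma Sep.not_dependent {r : ℕ} {f : Fin r → Y → ℝ} {c : Fin r → ℝ} (h : Sep f c) (hr : r ≠ 0) :
    ¬ TropDependent f := by
  obtain ⟨r, rfl⟩ := Nat.exists_eq_succ_of_ne_zero hr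
  exact fun h' => h.not_dependentT h'.toT

/-- sizes of separated sets of generators -/
def sizes : Set ℕ := {k | ∃ (J : Finset (Fin l)) (c : Fin l → ℝ), SepOn g J c ∧ J.card = k}

lemma zero_mem_sizes : 0 ∈ sizes g := ⟨∅, fun _ => 0, by intro j hj; simp at hj, rfl⟩

lemma sizes_le {k : ℕ} (h : k ∈ sizes g) : k ≤ l := by
  obtain ⟨J, c, -, rfl⟩ := h
  simpa using Finset.card_le_univ J

lemma bddAbove_sizes : BddAbove (sizes g) := ⟨l, fun _ h => sizes_le g h⟩

/-- the common value of the ranks and of the dimension -/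
noncomputable def N : ℕ := sSup (sizes g)

lemma N_mem : N g ∈ sizes g := Nat.sSup_mem ⟨0, zero_mem_sizes g⟩ (bddAbove_sizes g)

lemma le_N {k : ℕ} (h : k ∈ sizes g) : k ≤ N g := le_csSup (bddAbove_sizes g) h

theorem tropRankT_eq : tropRankT (spanM g) = (N g : ℕ∞) := by
  apply le_antisymm
  · unfold tropRankT
    refine iSup_le fun r => iSup_le fun h => ?_
    obtain ⟨f, -, h2, h3⟩ := h
    obtain ⟨c, hc⟩ := exists_sepT f h3
    obtain ⟨J, b, hJ, hcard⟩ := sepOn_of_sep g f h2 c hc
    exact_mod_cast le_N g ⟨J, b, hJ, hcard⟩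
  · obtain ⟨J, c, hJ, hcard⟩ := N_mem g
    rw [← hcard]
    have hs := sep_embed g hJ
    exact le_iSup_of_le J.card (le_iSup_of_le ⟨fun i => g (J.orderEmbOfFin rfl i), hs.injective,
      fun i => gen_mem g _, hs.not_dependentT⟩ le_rfl)

theorem le_tropRank : (N g : ℕ∞) ≤ tropRank (spanM g) := by
  obtain ⟨J, c, hJ, hcard⟩ := N_mem g
  rw [← hcard]
  have hs := sep_embed g hJ
  by_cases h0 : J.card = 0
  · rw [h0]; simp
  · exact le_iSup_of_le J.card (le_iSup_of_le ⟨fun i => g (J.orderEmbOfFin rfl i), hs.injective,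
      fun i => gen_mem g _, hs.not_dependent h0⟩ le_rfl)

/-- two finite-valued elements of the semimodule have bounded difference if the generators do -/
lemma bounded_of_mem (hg : ∀ i j, ∃ B : ℝ, ∀ x, g i x - g j x ≤ B) (f f' : Y → ℝ)
    (hf : toT f ∈ spanM g) (hf' : toT f' ∈ spanM g) : ∃ B : ℝ, ∀ x, f x - f' x ≤ B := by
  rcases isEmpty_or_nonempty Y with hY | ⟨⟨y⟩⟩
  · exact ⟨0, fun x => hY.elim x⟩
  obtain ⟨a, ha⟩ := (mem_spanM_iff g _).1 hf
  obtain ⟨b, hb⟩ := (mem_spanM_iff g _).1 hf'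
  have ha2 : ∀ y, (f y : WithTop ℝ) = univ.inf (fun j => untrop (a j) + (g j y : WithTop ℝ)) := by
    intro y
    rw [← untrop_comb g a y, ha]
    rfl
  have hb2 : ∀ y, (f' y : WithTop ℝ) = univ.inf (fun j => untrop (b j) + (g j y : WithTop ℝ)) := by
    intro y
    rw [← untrop_comb g b y, hb]
    rfl
  have hne : (univ : Finset (Fin l)).Nonempty := by
    by_contra hne
    rw [Finset.not_nonempty_iff_eq_empty] at hne
    have := ha2 y
    rw [hne, Finset.inf_empty] at this
    exact WithTop.coe_ne_top this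
  obtain ⟨p, -, hp⟩ := Finset.exists_mem_eq_inf univ hne
    (fun j => untrop (a j) + (g j y : WithTop ℝ))
  rw [← ha2 y] at hp
  have hfin : untrop (a p) ≠ ⊤ := by
    intro h
    rw [h, top_add] at hp
    exact WithTop.coe_ne_top hp
  obtain ⟨α, hα⟩ := WithTop.ne_top_iff_exists.1 hfin
  have hfp : ∀ x, f x ≤ α + g p x := by
    intro x
    have h3 : (f x : WithTop ℝ) ≤ untrop (a p) + (g p x : WithTop ℝ) := by
      rw [ha2 x]
      exact Finset.inf_le (mem_univ p)
    rwa [← hα, ← WithTop.coe_add, WithTop.coe_le_coe] at h3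
  choose B hB using hg
  obtain ⟨m, hm⟩ := Finite.bddAbove_range (fun j : Fin l => α + B p j - (untrop (b j)).untopD 0)
  refine ⟨m, fun x => ?_⟩
  obtain ⟨q, -, hq⟩ := Finset.exists_mem_eq_inf univ hne
    (fun j => untrop (b j) + (g j x : WithTop ℝ))
  rw [← hb2 x] at hq
  have hfin : untrop (b q) ≠ ⊤ := by
    intro h
    rw [h, top_add] at hq
    exact WithTop.coe_ne_top hq
  obtain ⟨β, hβ⟩ := WithTop.ne_top_iff_exists.1 hfin
  rw [← hβ, ← WithTop.coe_add, WithTop.coe_inj] at hq
  have h1 := hm ⟨q, rfl⟩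
  simp only at h1
  rw [← hβ, WithTop.untopD_coe] at h1
  have h2 := hB p q x
  have h3 := hfp x
  linarith

theorem tropRank_eq_of_bounded (hg : ∀ i j, ∃ B : ℝ, ∀ x, g i x - g j x ≤ B) :
    tropRank (spanM g) = (N g : ℕ∞) := by
  apply le_antisymm _ (le_tropRank g)
  unfold tropRank
  refine iSup_le fun r => iSup_le fun h => ?_
  obtain ⟨f, -, h2, h3⟩ := h
  have hb : ∀ i j, ∃ B : ℝ, ∀ x, f i x - f j x ≤ B := fun i j =>
    bounded_of_mem g hg (f i) (f j) (h2 i) (h2 j)
  choose B hB using hb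
  obtain ⟨R, hR⟩ := Finite.bddAbove_range (fun p : Fin r × Fin r => B p.1 p.2)
  obtain ⟨c, hc⟩ := exists_sep f R (fun i j x => (hB i j x).trans (hR ⟨(i, j), rfl⟩)) h3
  obtain ⟨J, b, hJ, hcard⟩ := sepOn_of_sep g f h2 c hc
  exact_mod_cast le_N g ⟨J, b, hJ, hcard⟩

lemma trop_smul_toT (a : ℝ) (f : Y → ℝ) :
    (trop (a : WithTop ℝ)) • toT f = toT (fun x => a + f x) := by
  ext x
  rfl

theorem tropRank_eq_top {p q : Fin l} (h : ∀ B : ℝ, ∃ x, B < g p x - g q x) :
    tropRank (spanM g) = ⊤ := by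
  rw [eq_top_iff, ← ENat.forall_natCast_le_iff_le]
  intro r _
  -- it suffices to find `r + 1` independent elements
  refine le_trans (b := ((r + 1 : ℕ) : ℕ∞)) (by exact_mod_cast Nat.le_succ r) ?_
  let f : Fin (r + 1) → Y → ℝ := Fin.cons (g q) (fun i x => (i : ℝ) + g p x)
  have hinj : Function.Injective f := by
    obtain ⟨y, hy⟩ := h 0
    intro i j hij
    have key : ∀ j : Fin r, g q ≠ fun x => (j : ℝ) + g p x := by
      intro j hj
      have := congrFun hj y
      have h0 : (0 : ℝ) ≤ (j : ℝ) := Nat.cast_nonneg _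
      linarith
    refine Fin.cases ?_ (fun i => ?_) i hij
    · intro hij
      refine Fin.cases ?_ (fun j => ?_) j hij
      · intro _; rfl
      · intro h'
        exact absurd h' (key j)
    · intro hij
      refine Fin.cases ?_ (fun j => ?_) j hij
      · intro h'
        exact absurd h'.symm (key i)
      · intro h'
        have := congrFun h' y
        simp only [f, Fin.cons_succ] at this
        have h2 : (i : ℝ) = (j : ℝ) := by linarith
        have h3 : (i : ℕ) = j := by exact_mod_cast h2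
        rw [Fin.ext h3]
  refine le_iSup_of_le (r + 1) (le_iSup_of_le ⟨f, hinj, ?_, ?_⟩ le_rfl)
  · intro i
    refine Fin.cases ?_ (fun i => ?_) i
    · exact gen_mem g q
    · have : toT (f i.succ) = (trop ((i : ℝ) : WithTop ℝ)) • toT (g p) := by
        rw [trop_smul_toT]
        rfl
      rw [this]
      exact Submodule.smul_mem _ _ (gen_mem g p)
  · rintro ⟨c, hc⟩
    obtain ⟨B, hB⟩ := Finite.bddAbove_range (fun i : Fin (r + 1) => c 0 - c i)
    obtain ⟨x, hx⟩ := h B
    obtain ⟨i, j, hij, h1, h2⟩ := hc x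
    have key : ∀ k : Fin r, f 0 x + c 0 < f k.succ x + c k.succ := by
      intro k
      have h3 := hB ⟨k.succ, rfl⟩
      simp only [f, Fin.cons_succ, Fin.cons_zero]
      have h0 : (0 : ℝ) ≤ (k : ℝ) := Nat.cast_nonneg _
      linarith
    by_cases hi : i = 0
    · subst hi
      obtain ⟨k, rfl⟩ := Fin.exists_succ_eq.2 (Ne.symm hij)
      exact absurd h1 (key k).ne
    · obtain ⟨k, rfl⟩ := Fin.exists_succ_eq.2 hi
      exact absurd (h2 0) (not_le.2 (key k))

end Pool.Agent.Lib.MP_8916ec_co
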